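import Pool.Agent.H65.EW.Gen

set_option autoImplicit false

/-!
# Deciding with a legal oracle by trying all passwords
-/

namespace Pool.Agent.H40.EW

open Pool.Agent.H88.RO Pool.Agent.H88.RO.Tr Pool.Agent.H65.TS Pool.Agent.H65.NU
open Pool.Agent.H65.EW

variable {O : List Bool → Bool}

/-- The set `L` is decided relative to `O` by a program in time `τ`, a function of the length of
the input. -/
def InTime (O : List Bool → Bool) (τ : ℕ → ℕ) (L : Set (List Bool)) : Prop :=
  ∃ (χ : List Bool → Bool) (c : Prog),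
    (∀ x, ∃ t ≤ τ x.length, Eval O c (enc x) (bit (χ x)) t) ∧ ∀ x, x ∈ L ↔ χ x = true

/-! ### a binary counter -/

/-- add the carry `c` (least significant digit first) -/
def incC : Bool → List Bool → List Bool
  | _, [] => []
  | c, b :: w => xor c b :: incC (c && b) w

/-- the next string -/
def inc (w : List Bool) : List Bool := incC true w

/-- the value of a string -/
def val : List Bool → ℕ
  | [] => 0
  | b :: w => (if b then 1 else 0) + 2 * val w

theorem incC_length (w : List Bool) : ∀ c, (incC c w).length = w.length := by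
  induction w with
  | nil => intro c; rfl
  | cons b w ih => intro c; simp [incC, ih]

theorem val_incC (w : List Bool) : ∀ c : Bool, val w + (if c then 1 else 0) < 2 ^ w.length →
    val (incC c w) = val w + (if c then 1 else 0) := by
  induction w with
  | nil => intro c h; cases c <;> simp_all [val, incC]
  | cons b w ih =>
    intro c h
    have h1 := ih (c && b)
    simp only [val, incC, List.length_cons, pow_succ] at *
    cases c <;> cases b <;> simp_all <;> omega

theorem val_zero (n : ℕ) : val (List.replicate n false) = 0 := by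
  induction n with
  | zero => rfl
  | succ n ih => simp [List.replicate_succ, val, ih]

theorem val_lt (w : List Bool) : val w < 2 ^ w.length := by
  induction w with
  | nil => simp [val]
  | cons b w ih =>
    simp only [val, List.length_cons, pow_succ]
    cases b <;> simp <;> omega

theorem val_inj (w : List Bool) : ∀ w' : List Bool, w.length = w'.length → val w = val w' →
    w = w' := by
  induction w with
  | nil =>
    intro w' h _
    rw [List.length_nil] at h
    exact (List.length_eq_zero_iff.mp h.symm).symm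
  | cons b w ih =>
    intro w' h h1
    cases w' with
    | nil => simp at h
    | cons b' w' =>
      simp only [List.length_cons, Nat.add_right_cancel_iff] at h
      simp only [val] at h1
      have h2 : b = b' := by cases b <;> cases b' <;> simp_all <;> omega
      subst h2
      rw [ih w' h (by omega)]

theorem inc_iter_length (j n : ℕ) : (inc^[j] (List.replicate n false)).length = n := by
  induction j with
  | zero => simp
  | succ j ih => rw [Function.iterate_succ_apply', inc, incC_length, ih]

theorem val_inc_iter (j n : ℕ) (h : j < 2 ^ n) : val (inc^[j] (List.replicate n false)) = j := by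
  induction j with
  | zero => simp [val_zero]
  | succ j ih =>
    have h1 := ih (by omega)
    rw [Function.iterate_succ_apply', inc, val_incC]
    · rw [h1]; simp
    · rw [h1, inc_iter_length]; simpa using h

/-- the counter visits all strings -/
theorem inc_iter (w : List Bool) : inc^[val w] (List.replicate w.length false) = w :=
  val_inj _ _ (inc_iter_length _ _) (val_inc_iter _ _ (val_lt w))

/-- one step of the program for the counter -/
def istep (s : Tr) : Tr :=
  cs (fst (snd s)) s
    (node (cs (fst s) leaf (cs (fst (fst (snd s))) leaf tt))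
      (node (snd (fst (snd s))) (node (cs (fst s) (cs (fst (fst (snd s))) leaf tt)
        (cs (fst (fst (snd s))) tt leaf)) (snd (snd s)))))

/-- the program for the counter -/
def incT (v : Tr) : Tr := revN (snd (snd (istep^[len v] (node tt (node v leaf)))))

theorem istep_iter (v : Tr) : ∀ (c : Bool) (acc : List Bool), ∃ c' : Bool,
    istep^[len v] (node (bit c) (node v (enc acc))) =
      node (bit c') (node leaf (enc ((incC c (dec v)).reverse ++ acc))) := by
  induction v with
  | leaf => intro c acc; exact ⟨c, rfl⟩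
  | node a b _ ih =>
    intro c acc
    have e : istep (node (bit c) (node (node a b) (enc acc))) =
        node (bit (c && decide (a ≠ leaf))) (node b (enc (xor c (decide (a ≠ leaf)) :: acc))) := by
      unfold istep
      rw [cs_neg _ _ (by simp)]
      simp only [fst_node, snd_node, enc]
      by_cases ha : a = leaf <;> cases c <;> simp [ha, cs, bit, tt]
    obtain ⟨c', hc'⟩ := ih (c && decide (a ≠ leaf)) (xor c (decide (a ≠ leaf)) :: acc)
    refine ⟨c', ?_⟩
    rw [len, Function.iterate_succ_apply, e, hc']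
    simp [dec, incC]

theorem incT_eq (v : Tr) : incT v = enc (inc (dec v)) := by
  obtain ⟨c', h⟩ := istep_iter v true []
  have e : (node (bit true) (node v (enc []))) = node tt (node v leaf) := rfl
  rw [e] at h
  rw [incT, h, snd_node, snd_node, revN_eq, dec_enc]
  simp [inc]

theorem size_istep (s : Tr) : size (istep s) ≤ size s + 10 := by
  unfold istep
  rcases s with _ | ⟨a, _ | ⟨_ | ⟨b, d⟩, e⟩⟩
  · simp [cs, size]
  · simp [cs, size]
  · simp [cs, size]
  · simp only [fst_node, snd_node, cs]
    split_ifs <;> simp only [size, tt] at * <;> (try omega) <;> (have := size_pos a; have := size_pos b; omega)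

theorem FP.incT' {F : Tr → Tr} (hF : FP O F) : FP O (fun v => incT (F v)) := by
  have h1 : FP O (fun s => fst s) := FP.fst' FP.id'
  have h2 : FP O (fun s => snd s) := FP.snd' FP.id'
  have h3 : FP O (fun s => fst (snd s)) := FP.fst' h2
  have h4 : FP O (fun s => fst (fst (snd s))) := FP.fst' h3
  have hd : FP O (fun s => istep s) :=
    FP.cs' h3 FP.id' (FP.node' (FP.cs' h1 FP.leaf' (FP.cs' h4 FP.leaf' (FP.const' _)))
      (FP.node' (FP.snd' h3) (FP.node' (FP.cs' h1 (FP.cs' h4 FP.leaf' (FP.const' _))
        (FP.cs' h4 (FP.const' _) FP.leaf')) (FP.snd' h2))))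
  exact FP.revN' (FP.snd' (FP.snd' (FP.iterate_add hd hF (FP.node' (FP.const' _)
    (FP.node' hF FP.leaf')) 10 size_istep)))

/-! ### trying all passwords -/

/-- one step of the search; the states are `node q (node w a)`, `a` the answer found so far -/
def gst (O : List Bool → Bool) (s : Tr) : Tr :=
  node (fst s) (node (incT (fst (snd s)))
    (cs (bit (O (dec (node leaf (node leaf (onesPre (fst s) (node leaf (fst (snd s)))))))))
      (snd (snd s))
      (node tt (bit (O (dec (node leaf (node tt (prT (fst (snd s)) (fst s))))))))))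

theorem FP_gst : FP O (fun s => gst O s) := by
  have h1 : FP O (fun s => fst s) := FP.fst' FP.id'
  have h2 : FP O (fun s => snd s) := FP.snd' FP.id'
  have h3 : FP O (fun s => fst (snd s)) := FP.fst' h2
  exact FP.node' h1 (FP.node' (FP.incT' h3) (FP.cs' (FP.query' (FP.node' FP.leaf' (FP.node'
    FP.leaf' (FP.onesPre' h1 (FP.node' FP.leaf' h3))))) (FP.snd' h2) (FP.node' (FP.const' _)
      (FP.query' (FP.node' FP.leaf' (FP.node' (FP.const' _) (FP.prT' h3 h1)))))))

theorem gst_iter_size (i : ℕ) (x : Tr) : fst ((gst O)^[i + 1] x) = fst x ∧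
    (∃ u : List Bool, fst (snd ((gst O)^[i + 1] x)) = enc u ∧
      u.length ≤ len (fst (snd x))) ∧
    size (snd (snd ((gst O)^[i + 1] x))) ≤ size (snd (snd x)) + 7 := by
  have hA : ∀ s : Tr, snd (snd (gst O s)) = snd (snd s) ∨ size (snd (snd (gst O s))) ≤ 7 := by
    intro s
    unfold gst
    simp only [snd_node, cs]
    split_ifs
    · exact Or.inl rfl
    · right
      have := size_bit_le (O (dec (node leaf (node tt (prT (fst (snd s)) (fst s))))))
      simp only [size, tt] at this ⊢
      omega
  have hW : ∀ s : Tr, fst (snd (gst O s)) = enc (inc (dec (fst (snd s)))) := by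
    intro s
    unfold gst
    rw [snd_node, fst_node, incT_eq]
  induction i with
  | zero =>
    rw [Function.iterate_one]
    refine ⟨rfl, ⟨_, hW x, ?_⟩, ?_⟩
    · rw [inc, incC_length, length_dec]
    · rcases hA x with h | h
      · rw [h]; omega
      · omega
  | succ i ih =>
    obtain ⟨h1, ⟨u, h2, h3⟩, h4⟩ := ih
    rw [Function.iterate_succ_apply']
    refine ⟨h1, ⟨_, hW _, ?_⟩, ?_⟩
    · rw [inc, incC_length, h2, dec_enc]; exact h3
    · rcases hA ((gst O)^[i + 1] x) with h | h
      · rw [h]; exact h4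
      · omega

theorem gst_size (i : ℕ) (x : Tr) : size ((gst O)^[i] x) ≤ 5 * size x + 12 := by
  cases i with
  | zero => rw [Function.iterate_zero, id]; omega
  | succ i =>
    obtain ⟨h1, ⟨u, h2, h3⟩, h4⟩ := gst_iter_size (O := O) i x
    have hs : ∀ s : Tr, size s ≤ size (fst s) + size (fst (snd s)) + size (snd (snd s)) + 2 := by
      intro s
      rcases s with _ | ⟨a, _ | ⟨b, c⟩⟩ <;> simp [size]
      omega
    have h5 := hs ((gst O)^[i + 1] x)
    have h6 := size_enc_le u
    have h7 := len_le_size (fst (snd x))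
    have a1 := size_fst_le x
    have a2 := size_snd_le x
    have a3 := size_fst_le (snd x)
    have a4 := size_snd_le (snd x)
    have a5 : size (fst (snd x)) + size (snd (snd x)) ≤ size x + 1 := by
      rcases x with _ | ⟨a, _ | ⟨b, c⟩⟩ <;> simp [size]
      omega
    rw [h1, h2] at h5
    omega

/-- the answer -/
def ansT (O : List Bool → Bool) (N Q Z : Tr) : Tr :=
  cs (snd (snd ((gst O)^[len N] (node Q (node Z leaf)))))
    (bit (O (dec (node leaf (node tt (prT Z Q))))))
    (snd (snd (snd ((gst O)^[len N] (node Q (node Z leaf))))))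

theorem FP.ansT' {F G H : Tr → Tr} (hF : FP O F) (hG : FP O G) (hH : FP O H) :
    FP O (fun v => ansT O (F v) (G v) (H v)) := by
  have h1 := FP.iterate' (FP_gst (O := O)) hF (FP.node' hG (FP.node' hH FP.leaf'))
    ⟨5 * Polynomial.X + 12, fun n x i _ => (gst_size i x).trans (by
      simp only [Polynomial.eval_add, Polynomial.eval_mul, Polynomial.eval_ofNat,
        Polynomial.eval_X]
      omega)⟩
  exact FP.cs' (FP.snd' (FP.snd' h1)) (FP.query' (FP.node' FP.leaf' (FP.node' (FP.const' _)
    (FP.prT' hH hG)))) (FP.snd' (FP.snd' (FP.snd' h1)))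

theorem dec_pw (q w : List Bool) : dec (node leaf (node leaf (onesPre (enc q)
    (node leaf (enc w))))) = pw q.length w := by
  have h1 : ∀ w, node leaf (enc w) = enc (false :: w) := fun w => rfl
  rw [h1, onesPre_enc, h1, h1, dec_enc, len_enc, pw]

theorem dec_cd (q w : List Bool) : dec (node leaf (node tt (prT (enc w) (enc q)))) = cd w q := by
  have h1 : ∀ w, node leaf (enc w) = enc (false :: w) := fun w => rfl
  have h2 : ∀ w, node tt (enc w) = enc (true :: w) := fun w => rfl
  rw [prT_enc, h2, h1, dec_enc, cd]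

variable {l : ℕ → ℕ} {tr : (List Bool → Bool) → List Bool → Prop}

open Classical in
theorem gst_iter (hO : Legal l tr O) (q : List Bool) (i : ℕ) : ∃ A : Tr,
    (gst O)^[i] (node (enc q) (node (enc (List.replicate (l q.length) false)) leaf)) =
      node (enc q) (node (enc (inc^[i] (List.replicate (l q.length) false))) A) ∧
    ((A = leaf ∧ ∀ j < i, O (pw q.length (inc^[j] (List.replicate (l q.length) false))) = false) ∨
      A = node tt (bit (decide (tr O q)))) := by
  induction i with
  | zero => exact ⟨leaf, rfl, Or.inl ⟨rfl, fun j hj => absurd hj (by omega)⟩⟩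
  | succ i ih =>
    obtain ⟨A, h1, h2⟩ := ih
    rw [Function.iterate_succ_apply', h1, Function.iterate_succ_apply' inc]
    unfold gst
    simp only [fst_node, snd_node]
    rw [dec_pw, dec_cd, incT_eq, dec_enc]
    refine ⟨_, rfl, ?_⟩
    cases hp : O (pw q.length (inc^[i] (List.replicate (l q.length) false))) with
    | false =>
      rw [cs_pos _ _ (by simp [bit])]
      rcases h2 with ⟨h2, h3⟩ | h2
      · refine Or.inl ⟨h2, fun j hj => ?_⟩
        rcases Nat.lt_succ_iff_lt_or_eq.mp hj with h4 | h4
        · exact h3 j h4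
        · rw [h4]; exact hp
      · exact Or.inr h2
    | true =>
      rw [cs_neg _ _ (by simp [bit])]
      right
      have h3 := hO q _ ⟨inc_iter_length i (l q.length), Or.inl hp⟩
      congr 2
      rw [Bool.eq_iff_iff, h3, decide_eq_true_eq]

open Classical in
theorem ansT_eq (hO : Legal l tr O) (q : List Bool) {N : Tr} (hN : 2 ^ l q.length ≤ len N) :
    ansT O N (enc q) (enc (List.replicate (l q.length) false)) = bit (decide (tr O q)) := by
  obtain ⟨A, h1, h2⟩ := gst_iter hO q (len N)
  unfold ansT
  rw [h1, snd_node, snd_node]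
  rcases h2 with ⟨h2, h3⟩ | h2
  · rw [cs_pos _ _ h2, dec_cd]
    have h4 : Pass l O q.length (List.replicate (l q.length) false) := by
      refine ⟨by simp, Or.inr ⟨rfl, fun w hw => ?_⟩⟩
      have h5 := h3 (val w) (lt_of_lt_of_le (val_lt w) (by rw [hw]; exact hN))
      rw [← hw, inc_iter] at h5
      exact h5
    congr 1
    rw [Bool.eq_iff_iff, hO q _ h4, decide_eq_true_eq]
  · rw [h2, cs_neg _ _ (by simp)]
    rfl

/-! ### the counter of length `2^l` -/

theorem dbl_iter (i : ℕ) : (fun v => addU v v)^[i] (num 1) = num (2 ^ i) := by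
  induction i with
  | zero => rfl
  | succ i ih => rw [Function.iterate_succ_apply', ih, addU_num]; congr 1; ring

theorem enc_zeros (n : ℕ) : enc (List.replicate n false) = num n := by
  induction n with
  | zero => rfl
  | succ n ih => rw [List.replicate_succ, enc, ih]; rfl

/-- **Trying all passwords**: the time is a polynomial in `2^l(p(n)) + n`. -/
theorem inTime_of_legal {lT : Tr → Tr} (hl : ∀ v, lT v = num (l (len v)))
    (hlT : ∀ F : Tr → Tr, FP O F → FP O (fun v => lT (F v))) (hO : Legal l tr O)
    {L : Set (List Bool)} (hL : ∃ (i : ℕ) (k n : Polynomial ℕ), ∀ x,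
      x ∈ L ↔ tr O (ins (k.eval x.length) (n.eval x.length) i x)) :
    ∃ P p : Polynomial ℕ, InTime O (fun n => P.eval (2 ^ l (p.eval n) + n)) L := by
  classical
  obtain ⟨i, k, n, hi⟩ := hL
  obtain ⟨Pk, hk1, hk2⟩ := exists_polyT k
  obtain ⟨Pn, hn1, hn2⟩ := exists_polyT n
  have hq : ∀ F : Tr → Tr, FP O F → FP O (fun v => insT (Pk (F v)) (Pn (F v)) (num i) (F v)) :=
    fun F hF => FP.insT' (hk2 O _ hF) (hn2 O _ hF) (FP.const' _) hF
  have hqe : ∀ x : List Bool, insT (Pk (enc x)) (Pn (enc x)) (num i) (enc x) =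
      enc (ins (k.eval x.length) (n.eval x.length) i x) := by
    intro x
    rw [insT_eq, hk1, hn1, len_num, len_num, len_num, len_enc]
  set qx : List Bool → List Bool := fun x => ins (k.eval x.length) (n.eval x.length) i x with hqx
  set p : Polynomial ℕ := k + n + Polynomial.C i + Polynomial.X + 3 with hp
  have hlen : ∀ x : List Bool, (qx x).length = p.eval x.length := by
    intro x
    simp [hqx, hp, ins_length]
  have h1 := hq (fun v => snd v) (FP.snd' FP.id')
  obtain ⟨cH, qH, hH⟩ := FP.ansT' (O := O) (FP.fst' FP.id') h1 (hlT _ h1)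
  obtain ⟨cD, qD, hD⟩ := FP.addU' (O := O) FP.id' FP.id'
  obtain ⟨cW, qW, hW⟩ := FP.node' (O := O) (hlT _ (hq (fun v => v) FP.id')) (FP.const' (num 1))
  refine ⟨qH.comp (6 * Polynomial.X + 4) + ((Polynomial.X + 1) * (qD.comp (2 * Polynomial.X + 1) +
    7 * (4 * Polynomial.X + 4)) + (qW.comp (4 * Polynomial.X + 1) +
    (30 * Polynomial.X + 30))), p, fun x => decide (tr O (qx x)),
    Prog.comp cH (Prog.pair (Prog.comp (Prog.loop (FP.loopBody cD)) cW) Prog.id), fun x => ?_,
    fun x => ?_⟩
  · set y : ℕ := 2 ^ l (p.eval x.length) + x.length with hy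
    have hll : l (p.eval x.length) < 2 ^ l (p.eval x.length) := Nat.lt_two_pow_self
    obtain ⟨t1, ht1, he1⟩ := hW (enc x)
    have e1 : lT (insT (Pk (enc x)) (Pn (enc x)) (num i) (enc x)) =
        num (l (p.eval x.length)) := by
      rw [hqe, hl, len_enc]
      congr 2
      exact hlen x
    beta_reduce at he1
    rw [e1] at he1
    obtain ⟨t2, ht2, he2⟩ := FP.eval_loop (O := O) hD (2 * 2 ^ l (p.eval x.length) + 1)
      (num (l (p.eval x.length))) (num 1) (fun j hj => by
        rw [dbl_iter, size_num]
        rw [len_num] at hj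
        have := Nat.pow_le_pow_right (show 0 < 2 by norm_num) hj
        omega)
    rw [dbl_iter, len_num] at he2
    rw [len_num, size_num] at ht2
    obtain ⟨t3, ht3, he3⟩ := hH (node (num (2 ^ l (p.eval x.length))) (enc x))
    have e3 : ansT O (fst (node (num (2 ^ l (p.eval x.length))) (enc x)))
        (insT (Pk (snd (node (num (2 ^ l (p.eval x.length))) (enc x))))
          (Pn (snd (node (num (2 ^ l (p.eval x.length))) (enc x)))) (num i)
          (snd (node (num (2 ^ l (p.eval x.length))) (enc x))))
        (lT (insT (Pk (snd (node (num (2 ^ l (p.eval x.length))) (enc x))))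
          (Pn (snd (node (num (2 ^ l (p.eval x.length))) (enc x)))) (num i)
          (snd (node (num (2 ^ l (p.eval x.length))) (enc x))))) =
        bit (decide (tr O (qx x))) := by
      rw [fst_node, snd_node, e1, hqe]
      have h5 := ansT_eq hO (qx x) (N := num (2 ^ l (p.eval x.length)))
        (by rw [len_num, hlen])
      rw [enc_zeros, hlen] at h5
      exact h5
    beta_reduce at he3
    rw [e3] at he3
    refine ⟨_, ?_, Eval.comp (Eval.pair (Eval.comp he1 he2) (Eval.id _)) he3⟩
    have b1 : size (enc x) ≤ 4 * x.length + 1 := size_enc_le x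
    have b2 : qW.eval (size (enc x)) ≤ qW.eval (4 * y + 1) := poly_mono _ (by omega)
    have b3 : size (node (num (2 ^ l (p.eval x.length))) (enc x)) ≤ 6 * y + 4 := by
      simp only [size, size_num]
      omega
    have b4 := poly_mono qH b3
    have b5 : (l (p.eval x.length) + 1) * (qD.eval (2 * 2 ^ l (p.eval x.length) + 1) +
        7 * ((2 * l (p.eval x.length) + 1) + (2 * 2 ^ l (p.eval x.length) + 1) + 2)) ≤
        (y + 1) * (qD.eval (2 * y + 1) + 7 * (4 * y + 4)) := by
      refine Nat.mul_le_mul (by omega) (Nat.add_le_add (poly_mono _ (by omega)) (by omega))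
    simp only [Polynomial.eval_add, Polynomial.eval_mul, Polynomial.eval_comp,
      Polynomial.eval_ofNat, Polynomial.eval_X, Polynomial.eval_one]
    rw [← hy]
    omega
  · rw [hi x, decide_eq_true_eq]

/-! ### the bound -/

/-- polynomials of powers of two -/
theorem poly_two_pow (P : Polynomial ℕ) : ∃ K : ℕ, ∀ a : ℕ, P.eval (2 ^ a) ≤ 2 ^ (K * a + K) := by
  induction P using Polynomial.induction_on' with
  | add P Q hP hQ =>
    obtain ⟨K, hK⟩ := hP
    obtain ⟨K', hK'⟩ := hQ
    refine ⟨K + K' + 1, fun a => ?_⟩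
    rw [Polynomial.eval_add]
    have h1 : (2 : ℕ) ^ (K * a + K) ≤ 2 ^ ((K + K') * a + (K + K')) :=
      Nat.pow_le_pow_right (by norm_num) (by nlinarith)
    have h2 : (2 : ℕ) ^ (K' * a + K') ≤ 2 ^ ((K + K') * a + (K + K')) :=
      Nat.pow_le_pow_right (by norm_num) (by nlinarith)
    have h3 : (2 : ℕ) ^ ((K + K') * a + (K + K') + 1) ≤ 2 ^ ((K + K' + 1) * a + (K + K' + 1)) :=
      Nat.pow_le_pow_right (by norm_num) (by nlinarith)
    have h4 : (2 : ℕ) ^ ((K + K') * a + (K + K') + 1) = 2 ^ ((K + K') * a + (K + K')) * 2 :=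
      pow_succ _ _
    have := hK a
    have := hK' a
    omega
  | monomial k c =>
    refine ⟨k + c, fun a => ?_⟩
    rw [Polynomial.eval_monomial, ← pow_mul]
    have h1 : c < 2 ^ c := Nat.lt_two_pow_self
    calc c * 2 ^ (a * k) ≤ 2 ^ c * 2 ^ (a * k) := Nat.mul_le_mul_right _ h1.le
      _ = 2 ^ (c + a * k) := (pow_add _ _ _).symm
      _ ≤ 2 ^ ((k + c) * a + (k + c)) := Nat.pow_le_pow_right (by norm_num) (by nlinarith)

/-- the time bound for short passwords -/
theorem time_le {l : ℕ → ℕ} (hl : ∀ n, Nat.size n ≤ l n)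
    (hlp : ∀ p : Polynomial ℕ, ∃ C, ∀ n, l (p.eval n) ≤ C * l n + C) (P p : Polynomial ℕ) :
    ∃ C, ∀ n, P.eval (2 ^ l (p.eval n) + n) ≤ 2 ^ (C * l n + C) := by
  obtain ⟨C, hC⟩ := hlp p
  obtain ⟨K, hK⟩ := poly_two_pow P
  refine ⟨K * (C + 1) + K * (C + 1) + K, fun n => ?_⟩
  have h1 : 2 ^ l (p.eval n) ≤ 2 ^ (C * l n + C + l n) :=
    Nat.pow_le_pow_right (by norm_num) ((hC n).trans (by omega))
  have h2 : n < 2 ^ (C * l n + C + l n) :=
    lt_of_lt_of_le (Nat.lt_size_self n) (Nat.pow_le_pow_right (by norm_num)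
      ((hl n).trans (by omega)))
  have h3 : 2 ^ l (p.eval n) + n ≤ 2 ^ (C * l n + C + l n + 1) := by
    rw [pow_succ]; omega
  refine (poly_mono P h3).trans ((hK _).trans (Nat.pow_le_pow_right (by norm_num) ?_))
  have e1 : K * (C * l n + C + l n + 1) + K = K * C * l n + K * C + K * l n + K + K := by ring
  have e2 : (K * (C + 1) + K * (C + 1) + K) * l n + (K * (C + 1) + K * (C + 1) + K) =
      2 * (K * C * l n) + 2 * (K * l n) + K * l n + 2 * (K * C) + 2 * K + K := by ring
  omega

theorem InTime.mono {τ τ' : ℕ → ℕ} {L : Set (List Bool)} (h : InTime O τ L)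
    (hτ : ∀ n, τ n ≤ τ' n) : InTime O τ' L := by
  obtain ⟨χ, c, h1, h2⟩ := h
  refine ⟨χ, c, fun x => ?_, h2⟩
  obtain ⟨t, ht, he⟩ := h1 x
  exact ⟨t, ht.trans (hτ _), he⟩

/-- **Time `2^(C l(n) + C)`.** -/
theorem inTime_of_legal' {lT : Tr → Tr} (hl : ∀ v, lT v = num (l (len v)))
    (hlT : ∀ F : Tr → Tr, FP O F → FP O (fun v => lT (F v))) (hO : Legal l tr O)
    (hls : ∀ n, Nat.size n ≤ l n)
    (hlp : ∀ p : Polynomial ℕ, ∃ C, ∀ n, l (p.eval n) ≤ C * l n + C)
    {L : Set (List Bool)} (hL : ∃ (i : ℕ) (k n : Polynomial ℕ), ∀ x,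
      x ∈ L ↔ tr O (ins (k.eval x.length) (n.eval x.length) i x)) :
    ∃ C, InTime O (fun n => 2 ^ (C * l n + C)) L := by
  obtain ⟨P, p, h⟩ := inTime_of_legal hl hlT hO hL
  obtain ⟨C, hC⟩ := time_le hls hlp P p
  exact ⟨C, h.mono hC⟩

/-- **Time `r(2^l(r(n)))`**, for monotone passwords of more than logarithmic length. -/
theorem inTime_of_superlog {lT : Tr → Tr} (hl : ∀ v, lT v = num (l (len v)))
    (hlT : ∀ F : Tr → Tr, FP O F → FP O (fun v => lT (F v))) (hO : Legal l tr O)
    (hm : Monotone l) (hg : ∀ C : ℕ, ∃ n0, ∀ n ≥ n0, n ^ C < 2 ^ l n)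
    {L : Set (List Bool)} (hL : ∃ (i : ℕ) (k n : Polynomial ℕ), ∀ x,
      x ∈ L ↔ tr O (ins (k.eval x.length) (n.eval x.length) i x)) :
    ∃ r : Polynomial ℕ, InTime O (fun n => r.eval (2 ^ l (r.eval n))) L := by
  obtain ⟨P, p, h⟩ := inTime_of_legal hl hlT hO hL
  obtain ⟨n0, hn0⟩ := hg 1
  refine ⟨P.comp (2 * Polynomial.X + Polynomial.C n0) + (p + Polynomial.X), h.mono fun n => ?_⟩
  set r : Polynomial ℕ := P.comp (2 * Polynomial.X + Polynomial.C n0) + (p + Polynomial.X)
    with hr
  have h1 : p.eval n ≤ r.eval n := by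
    rw [hr, Polynomial.eval_add, Polynomial.eval_add]
    omega
  have h2 : n ≤ r.eval n := by
    rw [hr, Polynomial.eval_add, Polynomial.eval_add, Polynomial.eval_X]
    omega
  have h3 : 2 ^ l (p.eval n) ≤ 2 ^ l (r.eval n) := Nat.pow_le_pow_right (by norm_num) (hm h1)
  have hp : 0 < 2 ^ l (r.eval n) := Nat.two_pow_pos _
  have h4 : n ≤ 2 ^ l (r.eval n) + n0 := by
    rcases Nat.lt_or_ge n n0 with h5 | h5
    · omega
    · have h6 := hn0 n h5
      rw [pow_one] at h6
      have h7 : 2 ^ l n ≤ 2 ^ l (r.eval n) := Nat.pow_le_pow_right (by norm_num) (hm h2)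
      omega
  have h5 : P.eval (2 ^ l (p.eval n) + n) ≤ P.eval (2 * 2 ^ l (r.eval n) + n0) :=
    poly_mono P (by omega)
  have h6 : r.eval (2 ^ l (r.eval n)) = P.eval (2 * 2 ^ l (r.eval n) + n0) +
      (p.eval (2 ^ l (r.eval n)) + 2 ^ l (r.eval n)) := by
    rw [hr]
    simp only [Polynomial.eval_add, Polynomial.eval_comp, Polynomial.eval_mul,
      Polynomial.eval_ofNat, Polynomial.eval_X, Polynomial.eval_C]
  rw [h6]
  omega

end Pool.Agent.H40.EW
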