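import Pool.Agent.H40.EW.UDefs

set_option autoImplicit false

/-! # Conditions: the case distinction -/

namespace Pool.Agent.H40.EW

open Pool.Agent.H88.RO Tr Classical Pool.Agent.H65.EW
open Pool.Agent.H45.EW hiding Sat Cnd Dead Alive Kill exists_fill

variable {ℓ : ℕ → ℕ} {tr : Orc → List Bool → Prop}

theorem getElem?_of_prefix {α : Type*} {A B : List α} (h : A <+: B) {i : ℕ} {c : α}
    (hi : A[i]? = some c) : B[i]? = some c := by
  obtain ⟨C, rfl⟩ := h
  obtain ⟨hlt, _⟩ := List.getElem?_eq_some_iff.mp hi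
  rw [List.getElem?_append_left hlt]
  exact hi

theorem Dead.mono {e : Pre} {p q : Cnd ℓ tr} (h : p.Le q) (hp : Dead e p) : Dead e q := by
  obtain ⟨x, hx⟩ := hp
  exact ⟨x, fun O' hO' => hx O' (h.ag.trans hO' h.m)⟩

theorem Alive.mono {e : Pre} {κ j : ℕ} {p q : Cnd ℓ tr} (h : p.Le q) (hp : Alive e κ j p) :
    Alive e κ j q := by
  obtain ⟨β, m0, h1, h2, h3, h4⟩ := hp
  refine ⟨β, m0, h1.trans h.m, h2, getElem?_of_prefix h.A h3, fun O' hO' hag hs => ?_⟩
  refine h4 O' hO' ((h.ag.mono h1).trans hag le_rfl) (fun i c hi hc => ?_)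
  exact hs i c hi (getElem?_of_prefix h.A hc)

theorem Kill.mono {e : Pre} {κ j : ℕ} {cf cg : Prog} {N : ℕ} {p q : Cnd ℓ tr} (h : p.Le q)
    (hp : Kill ℓ e κ j cf cg N p) : Kill ℓ e κ j cf cg N q := by
  obtain ⟨b, hb, hk⟩ := hp
  exact ⟨b, hb, fun T hT O' hO' => hk T hT O' (h.ag.trans hO' h.m)⟩

/-- raise `m` -/
theorem exists_raise (p : Cnd ℓ tr) (m : ℕ) : ∃ q : Cnd ℓ tr, p.Le q ∧ m ≤ q.m :=
  ⟨⟨p.O, max p.m m, p.A, p.leg, p.sat⟩, ⟨le_max_left _ _, Ag.refl _ _, List.prefix_rfl⟩,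
    le_max_right _ _⟩

/-- there is a condition -/
theorem exists_cnd (htr : Loc tr) : ∃ p : Cnd ℓ tr, p.A = [] := by
  obtain ⟨O, hO⟩ := exists_leg (ℓ := ℓ) htr
  exact ⟨⟨O, 0, [], hO, by simp⟩, rfl⟩

/-- every candidate is decided: either it is made partial, or a constraint is added -/
theorem exists_decide (htr : Loc tr) (e : Pre) (κ : ℕ) (p : Cnd ℓ tr) :
    ∃ q : Cnd ℓ tr, p.Le q ∧ (Dead e q ∨ ∃ j, Alive e κ j q) := by
  by_cases hc : ∃ O' : Orc, Legal ℓ tr O' ∧ Ag p.m p.O O' ∧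
      (∀ i c, p.A[i]? = some c → Sat O' i c) ∧ ¬ Tot e O'
  · obtain ⟨O', hleg, hag, hsat, htot⟩ := hc
    unfold Tot at htot
    push Not at htot
    obtain ⟨x, hx⟩ := htot
    obtain ⟨m, hm⟩ := sol_local e x
    refine ⟨⟨O', max p.m m, p.A, hleg, hsat⟩, ⟨le_max_left _ _, hag, List.prefix_rfl⟩,
      Or.inl ⟨x, fun O'' hO'' y hy => ?_⟩⟩
    exact hx y ((hm O' O'' (hO''.mono (le_max_right _ _)) y).mp hy)
  · push Not at hc
    obtain ⟨O2, h1, h2, h3, h4⟩ := exists_fill htr p.leg p.m p.A.length κ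
    have hlast : (p.A ++ [(κ, p.m)])[p.A.length]? = some (κ, p.m) := by simp
    refine ⟨⟨O2, p.m, p.A ++ [(κ, p.m)], h1, ?_⟩, ⟨le_rfl, h2, List.prefix_append _ _⟩,
      Or.inr ⟨p.A.length, p.m, p.m, le_rfl, le_rfl, hlast, ?_⟩⟩
    · intro i c hi
      rcases Nat.lt_trichotomy i p.A.length with hlt | rfl | hgt
      · rw [List.getElem?_append_left hlt] at hi
        exact (p.sat i c hi).congr (fun b z => h4 i b z (by omega))
      · rw [hlast] at hi
        obtain rfl := Option.some.inj hi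
        exact h3
      · rw [List.getElem?_eq_none (by simp; omega)] at hi
        cases hi
    · intro O' hO' hag hs
      refine hc O' hO' (h2.trans hag le_rfl) (fun i c hi => ?_)
      obtain ⟨hlt, _⟩ := List.getElem?_eq_some_iff.mp hi
      exact hs i c hlt (getElem?_of_prefix (List.prefix_append _ _) hi)

end Pool.Agent.H40.EW
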