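import Pool.Agent.H45.EW.Fill
import Pool.Agent.H45.EW.Read

set_option autoImplicit false

/-!
# Conditions with unique elements

As `Pool.Agent.H45.EW.Defs`, but the constraints ask for exactly one element of each region.
-/

namespace Pool.Agent.H40.EW

open Pool.Agent.H88.RO Tr Classical Pool.Agent.H65.EW
open Pool.Agent.H45.EW hiding Sat Cnd Dead Alive Kill exists_fill

/-- the constraint number `j`, with parameters `c = (κ, β)`, holds -/
def Sat (O : Orc) (j : ℕ) (c : ℕ × ℕ) : Prop :=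
  ∀ b, c.2 ≤ b → ∃! z : List Bool, z.length = b ^ (c.1 + 1) ∧ O (rg j b z) = true

/-- conditions -/
structure Cnd (ℓ : ℕ → ℕ) (tr : Orc → List Bool → Prop) where
  /-- the oracle -/
  O : Orc
  /-- the length below which it is final -/
  m : ℕ
  /-- the constraints -/
  A : List (ℕ × ℕ)
  leg : Legal ℓ tr O
  sat : ∀ j c, A[j]? = some c → Sat O j c

variable {ℓ : ℕ → ℕ} {tr : Orc → List Bool → Prop}

/-- `q` extends `p` -/
structure Cnd.Le (p q : Cnd ℓ tr) : Prop where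
  m : p.m ≤ q.m
  ag : Ag p.m p.O q.O
  A : p.A <+: q.A

/-- `p` forces the candidate `e` not to be total -/
def Dead (e : Pre) (p : Cnd ℓ tr) : Prop :=
  ∃ x, ∀ O', Ag p.m p.O O' → ∀ y, ¬ Sol e O' x y

/-- `p` forces the candidate `e` to be total; the constraint number `j` was added for it, with
parameter `κ`; totality does not depend on this constraint -/
def Alive (e : Pre) (κ j : ℕ) (p : Cnd ℓ tr) : Prop :=
  ∃ β m0, m0 ≤ p.m ∧ m0 ≤ β ∧ p.A[j]? = some (κ, β) ∧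
    ∀ O', Legal ℓ tr O' → Ag m0 p.O O' → (∀ i c, i < j → p.A[i]? = some c → Sat O' i c) → Tot e O'

theorem Cnd.Le.refl (p : Cnd ℓ tr) : p.Le p := ⟨le_rfl, Ag.refl _ _, List.prefix_rfl⟩

theorem Cnd.Le.trans {p q r : Cnd ℓ tr} (h : p.Le q) (h' : q.Le r) : p.Le r :=
  ⟨h.m.trans h'.m, h.ag.trans h'.ag h.m, h.A.trans h'.A⟩

/-- `Sat` depends only on the region -/
theorem Sat.congr {O O' : Orc} {j : ℕ} {c : ℕ × ℕ}
    (h : ∀ b z, O' (rg j b z) = O (rg j b z)) (hs : Sat O j c) : Sat O' j c := by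
  intro b hb
  obtain ⟨z, ⟨h1, h2⟩, h3⟩ := hs b hb
  exact ⟨z, ⟨h1, by rw [h]; exact h2⟩, fun z' hz' => h3 z' ⟨hz'.1, by rw [← h]; exact hz'.2⟩⟩

/-- fill the regions `(j, b)` for `b ≥ m` -/
theorem exists_fill (htr : Loc tr) {O : Orc} (hO : Legal ℓ tr O) (m j κ : ℕ) :
    ∃ O2 : Orc, Legal ℓ tr O2 ∧ Ag m O O2 ∧ Sat O2 j (κ, m) ∧
      ∀ j' b z, j' ≠ j → O2 (rg j' b z) = O (rg j' b z) := by
  set F : Orc := fun s => if ∃ b z, m ≤ b ∧ s = rg j b z then
    decide (∃ b, m ≤ b ∧ s = rg j b (List.replicate (b ^ (κ + 1)) false)) else O s with hF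
  have hlow : ∀ s : List Bool, s.length < m → F s = O s := by
    intro s hs
    simp only [hF]
    rw [if_neg]
    rintro ⟨b, z, hb, rfl⟩
    rw [rg_length] at hs; omega
  refine ⟨Phi ℓ tr F, legal_Phi htr F, Phi_eq_of_lt htr hO hlow, fun b hb => ?_,
    fun j' b z h => ?_⟩
  · refine ⟨List.replicate (b ^ (κ + 1)) false, ⟨by simp, ?_⟩, ?_⟩
    · rw [Phi_rg]; simp only [hF]
      rw [if_pos ⟨b, _, hb, rfl⟩, decide_eq_true_eq]
      exact ⟨b, hb, rfl⟩
    · rintro z ⟨_, hz⟩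
      rw [Phi_rg] at hz
      simp only [hF] at hz
      rw [if_pos ⟨b, _, hb, rfl⟩, decide_eq_true_eq] at hz
      obtain ⟨b', _, hb'⟩ := hz
      obtain ⟨-, h1, h2⟩ := rg_inj hb'
      rw [h2, h1]
  · rw [Phi_rg]; simp only [hF]; rw [if_neg]
    rintro ⟨b', z', hb', h1⟩
    exact h (rg_inj h1).1

/-- The reduction fails at some instance `1 ^ b`, `b ≥ N`, in every time `T` which is small. -/
def Kill (ℓ : ℕ → ℕ) {tr : Orc → List Bool → Prop} (e : Pre) (κ j : ℕ) (cf cg : Prog) (N : ℕ)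
    (p : Cnd ℓ tr) : Prop :=
  ∃ b, N ≤ b ∧ ∀ T, (∀ m, b ^ (κ + 1) ≤ m → (Pol e cf cg).eval T < 2 ^ ℓ m) →
    ∀ O', Ag p.m p.O O' → ¬ RedAt O' e κ j cf cg T b

end Pool.Agent.H40.EW
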