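import Pool.Agent.H40.EW.UDiag
import Pool.Agent.H45.EW.Lim

set_option autoImplicit false

/-! # The limit -/

namespace Pool.Agent.H40.EW

open Pool.Agent.H88.RO Tr Classical Pool.Agent.H65.EW
open Pool.Agent.H45.EW hiding Sat Cnd Dead Alive Kill exists_fill exists_free exists_kill exists_decide exists_raise exists_cnd Met exists_step le_chain exists_seq exists_oracle getElem?_of_prefix

variable {ℓ : ℕ → ℕ} {tr : Orc → List Bool → Prop}

/-- the requirement `t` is met at `q`, an extension of `p` -/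
def Met (p : Cnd ℓ tr) (q : Cnd ℓ tr) : Task → Prop
  | Sum.inl (e, κ) => Dead e q ∨ ∃ j, Alive e κ j q
  | Sum.inr (e, κ, j, cf, cg, N) => Alive e κ j p → Kill ℓ e κ j cf cg N q

theorem exists_step (htr : Loc tr) (hℓ : ∀ n, ℓ n ≤ n) (p : Cnd ℓ tr) (t : Task) (m : ℕ) :
    ∃ q : Cnd ℓ tr, p.Le q ∧ m ≤ q.m ∧ Met p q t := by
  rcases t with ⟨e, κ⟩ | ⟨e, κ, j, cf, cg, N⟩
  · obtain ⟨q, hq, h⟩ := exists_decide htr e κ p
    obtain ⟨r, hr, hm⟩ := exists_raise q m
    refine ⟨r, hq.trans hr, hm, ?_⟩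
    rcases h with h | ⟨j, h⟩
    · exact Or.inl (h.mono hr)
    · exact Or.inr ⟨j, h.mono hr⟩
  · by_cases ha : Alive e κ j p
    · obtain ⟨q, hq, h⟩ := exists_kill htr hℓ ha cf cg N
      obtain ⟨r, hr, hm⟩ := exists_raise q m
      exact ⟨r, hq.trans hr, hm, fun _ => h.mono hr⟩
    · obtain ⟨r, hr, hm⟩ := exists_raise p m
      exact ⟨r, hr, hm, fun h => absurd h ha⟩

theorem le_chain {p : ℕ → Cnd ℓ tr} (h : ∀ k, (p k).Le (p (k + 1))) {k k' : ℕ} (hk : k ≤ k') :
    (p k).Le (p k') := by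
  induction k', hk using Nat.le_induction with
  | base => exact Cnd.Le.refl _
  | succ n _ ih => exact ih.trans (h n)

/-- a sequence of conditions which meets all requirements -/
theorem exists_seq (htr : Loc tr) (hℓ : ∀ n, ℓ n ≤ n) : ∃ p : ℕ → Cnd ℓ tr,
    (∀ k, (p k).Le (p (k + 1))) ∧ (∀ k, k ≤ (p k).m) ∧
    (∀ e κ, ∃ k, Dead e (p k) ∨ ∃ j, Alive e κ j (p k)) ∧
    ∀ e κ j k, Alive e κ j (p k) → ∀ cf cg N, ∃ k', Kill ℓ e κ j cf cg N (p k') := by
  obtain ⟨ν, hν⟩ := exists_enum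
  choose st h1 h2 h3 using fun (p : Cnd ℓ tr) (t : Task) (m : ℕ) => exists_step htr hℓ p t m
  obtain ⟨p0, -⟩ := exists_cnd (ℓ := ℓ) htr
  let p : ℕ → Cnd ℓ tr := fun k => Nat.rec p0 (fun k q => st q (ν k) (k + 1)) k
  have hp : ∀ k, p (k + 1) = st (p k) (ν k) (k + 1) := fun _ => rfl
  have hle : ∀ k, (p k).Le (p (k + 1)) := fun k => by rw [hp]; exact h1 _ _ _
  refine ⟨p, hle, ?_, ?_, ?_⟩
  · intro k
    cases k with
    | zero => exact Nat.zero_le _
    | succ k => rw [hp]; exact h2 _ _ _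
  · intro e κ
    obtain ⟨k, -, hk⟩ := hν (Sum.inl (e, κ)) 0
    refine ⟨k + 1, ?_⟩
    have := h3 (p k) (ν k) (k + 1)
    rw [← hp, hk] at this
    exact this
  · intro e κ j k ha cf cg N
    obtain ⟨k', hkk, hk⟩ := hν (Sum.inr (e, κ, j, cf, cg, N)) k
    refine ⟨k' + 1, ?_⟩
    have := h3 (p k') (ν k') (k' + 1)
    rw [← hp, hk] at this
    exact this (ha.mono (le_chain hle hkk))

/-- the oracle -/
theorem exists_oracle (htr : Loc tr) (hℓ : ∀ n, ℓ n ≤ n) : ∃ O : Orc, Legal ℓ tr O ∧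
    ∀ e, Tot e O → ∀ κ, ∃ j β, Sat O j (κ, β) ∧ ∀ cf cg N, ∃ b, N ≤ b ∧
      ∀ T, (∀ m, b ^ (κ + 1) ≤ m → (Pol e cf cg).eval T < 2 ^ ℓ m) →
        ¬ RedAt O e κ j cf cg T b := by
  obtain ⟨p, hle, hm, hdec, hkill⟩ := exists_seq (ℓ := ℓ) htr hℓ
  let O : Orc := fun s => (p (s.length + 1)).O s
  have hO : ∀ k, Ag (p k).m (p k).O O := by
    intro k s hs
    show (p (s.length + 1)).O s = (p k).O s
    rcases Nat.le_total k (s.length + 1) with h | h
    · exact (le_chain hle h).ag s hs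
    · exact ((le_chain hle h).ag s (lt_of_lt_of_le (Nat.lt_succ_self _) (hm _))).symm
  refine ⟨O, ?_, ?_⟩
  · intro q w hw
    have hk := hm (2 * ℓ q.length + q.length + 4)
    have hA := hO (2 * ℓ q.length + q.length + 4)
    have hl : w.length = ℓ q.length := hw.1
    have hp : Pass ℓ (p (2 * ℓ q.length + q.length + 4)).O q.length w := by
      refine ⟨hl, ?_⟩
      rcases hw.2 with h1 | ⟨h1, h2⟩
      · left
        rw [← hA _ (by rw [pw_length]; omega)]
        exact h1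
      · right
        refine ⟨h1, fun w' hw' => ?_⟩
        rw [← hA _ (by rw [pw_length]; omega)]
        exact h2 w' hw'
    have h3 := (p (2 * ℓ q.length + q.length + 4)).leg q w hp
    rw [hA _ (by rw [cd_length]; omega), h3]
    exact (htr _ _ _ (fun s hs => hA _ (by omega))).symm
  · intro e ht κ
    obtain ⟨k, hd | ⟨j, ha⟩⟩ := hdec e κ
    · exfalso
      obtain ⟨x, hx⟩ := hd
      obtain ⟨y, hy⟩ := ht x
      exact hx O (hO k) y hy
    · have ha' := ha
      obtain ⟨β, m0, -, -, hA, -⟩ := ha'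
      refine ⟨j, β, ?_, fun cf cg N => ?_⟩
      · intro b hb
        set k' := max k (j + b + b ^ (κ + 1) + 4) with hk'
        have hkk : k ≤ k' := le_max_left _ _
        have hm' : j + b + b ^ (κ + 1) + 4 ≤ (p k').m := (le_max_right _ _).trans (hm k')
        have hA' : (p k').A[j]? = some (κ, β) := by
          obtain ⟨t, ht⟩ := (le_chain hle hkk).A
          rw [← ht, List.getElem?_append_left]
          · exact hA
          · by_contra hc
            rw [List.getElem?_eq_none (by omega)] at hA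
            cases hA
        have hlen : ∀ z : List Bool, z.length = b ^ (κ + 1) → (rg j b z).length < (p k').m := by
          intro z hz
          rw [rg_length, hz]
          omega
        obtain ⟨z, ⟨hz, h1⟩, h2⟩ := (p k').sat j (κ, β) hA' b hb
        refine ⟨z, ⟨hz, ?_⟩, fun y hy => h2 y ⟨hy.1, ?_⟩⟩
        · rw [hO k' _ (hlen z hz)]
          exact h1
        · rw [← hO k' _ (hlen y hy.1)]
          exact hy.2
      · obtain ⟨k', b, hb, h⟩ := hkill e κ j k ha cf cg N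
        exact ⟨b, hb, fun T hT => h T hT O (hO k')⟩

end Pool.Agent.H40.EW
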