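import Pool.Agent.H65.EW.Srch

set_option autoImplicit false

/-!
# The search problem given by the regions of an oracle, with unique solutions

As `Pool.Agent.H65.EW.Srch`, but each region has exactly one element, and the only solution of an
instance which is shorter than `β` is the empty string.
-/

namespace Pool.Agent.H40.EW

open Pool.Agent.H88.RO Pool.Agent.H88.RO.Tr Pool.Agent.H65.TS Pool.Agent.H65.NU
open Pool.Agent.H65.EW

variable {O : List Bool → Bool}

/-- the program for the relation -/
private def relT (O : List Bool → Bool) (j β : ℕ) (P : Tr → Tr) (v : Tr) : Tr :=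
  cs (dropU (fst v) (num β))
    (cs (dropU (P (fst v)) (snd v))
      (cs (dropU (snd v) (P (fst v)))
        (bit (O (dec (node tt (onesPre (num j) (node leaf (onesPre (fst v)
          (node leaf (snd v))))))))) leaf) leaf) (cs (snd v) tt leaf)

private theorem FP_relT (O : List Bool → Bool) (j β : ℕ) {P : Tr → Tr}
    (hP : ∀ (F : Tr → Tr), FP O F → FP O (fun v => P (F v))) : FP O (relT O j β P) := by
  have h1 : FP O (fun v => fst v) := FP.fst' FP.id'
  have h2 : FP O (fun v => snd v) := FP.snd' FP.id'
  exact FP.cs' (FP.dropU' h1 (FP.const' _)) (FP.cs' (FP.dropU' (hP _ h1) h2)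
    (FP.cs' (FP.dropU' h2 (hP _ h1)) (FP.query' (FP.node' (FP.const' _) (FP.onesPre'
      (FP.const' _) (FP.node' FP.leaf' (FP.onesPre' h1 (FP.node' FP.leaf' h2)))))) FP.leaf')
      FP.leaf') (FP.cs' h2 (FP.const' _) FP.leaf')

/-- the relation of the search problem: `y` is a string in the region number `j`, `|x|`; the
instances that are shorter than `β` have the empty string as their only solution -/
def Rel1 (O : List Bool → Bool) (j β : ℕ) (r : Polynomial ℕ) (x y : List Bool) : Bool :=
  if x.length < β then decide (y = [])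
  else decide (y.length = r.eval x.length) && O (rg j x.length y)

theorem polyTimeRel_Rel1 (O : List Bool → Bool) (j β : ℕ) (r : Polynomial ℕ) :
    PolyTimeRel O (Rel1 O j β r) := by
  obtain ⟨P, hp1, hp2⟩ := exists_polyT r
  refine polyTimeRel_of_FP (FP_relT O j β (hp2 O)) (fun x y => ?_)
  unfold relT Rel1
  have e0 : dec (node tt (onesPre (num j) (node leaf (onesPre (enc x) (node leaf (enc y)))))) =
      rg j x.length y := by
    have h1 : ∀ w, node leaf (enc w) = enc (false :: w) := fun w => rfl
    have h2 : ∀ w, node tt (enc w) = enc (true :: w) := fun w => rfl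
    rw [h1, onesPre_enc, h1, onesPre_enc, h2, dec_enc, len_num, len_enc, rg]
  rw [fst_node, snd_node, e0, hp1, len_enc]
  by_cases h : x.length < β
  · rw [cs_neg _ _ (by rw [ne_eq, dropU_eq_leaf, len_enc, len_num]; omega), if_pos h]
    cases y with
    | nil => simp [enc]
    | cons b y => simp [enc, cs]
  · rw [cs_pos _ _ (by rw [dropU_eq_leaf, len_enc, len_num]; omega), if_neg h]
    by_cases h1 : y.length ≤ r.eval x.length
    · rw [cs_pos _ _ (by rw [dropU_eq_leaf, len_enc, len_num]; exact h1)]
      by_cases h2 : r.eval x.length ≤ y.length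
      · rw [cs_pos _ _ (by rw [dropU_eq_leaf, len_enc, len_num]; exact h2)]
        have e : y.length = r.eval x.length := by omega
        rw [Pool.Agent.H65.TS.bit_ne_leaf]
        simp [e]
      · rw [cs_neg _ _ (by rw [ne_eq, dropU_eq_leaf, len_enc, len_num]; exact h2)]
        simp [show y.length ≠ r.eval x.length by omega]
    · rw [cs_neg _ _ (by rw [ne_eq, dropU_eq_leaf, len_enc, len_num]; exact h1)]
      simp [show y.length ≠ r.eval x.length by omega]

/-- **The search problem of a family of regions with one element each.** -/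
def SJ1 (O : List Bool → Bool) (j β : ℕ) (r : Polynomial ℕ)
    (h : ∀ b, β ≤ b → ∃! z : List Bool, z.length = r.eval b ∧ O (rg j b z) = true) : TFNP O where
  R := Rel1 O j β r
  p := r
  polyTime := polyTimeRel_Rel1 O j β r
  total := by
    intro x
    by_cases hx : x.length < β
    · exact ⟨[], by simp, by simp [Rel1, hx]⟩
    · obtain ⟨z, ⟨hz1, hz2⟩, _⟩ := h x.length (by omega)
      exact ⟨z, hz1.le, by simp [Rel1, hx, hz1, hz2]⟩

theorem SJ1_sol {j β : ℕ} {r : Polynomial ℕ}
    (h : ∀ b, β ≤ b → ∃! z : List Bool, z.length = r.eval b ∧ O (rg j b z) = true)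
    {x y : List Bool} (hx : β ≤ x.length) (hy : (SJ1 O j β r h).IsSol x y) :
    y.length = r.eval x.length ∧ O (rg j x.length y) = true := by
  have h1 : Rel1 O j β r x y = true := hy.2
  simpa [Rel1, show ¬ x.length < β by omega] using h1

/-- the solutions depend only on the length of the instance -/
theorem SJ1_length {j β : ℕ} {r : Polynomial ℕ}
    (h : ∀ b, β ≤ b → ∃! z : List Bool, z.length = r.eval b ∧ O (rg j b z) = true)
    {x x' y : List Bool} (hx : x.length = x'.length) :
    (SJ1 O j β r h).IsSol x y ↔ (SJ1 O j β r h).IsSol x' y := by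
  unfold TFNP.IsSol
  show (y.length ≤ r.eval x.length ∧ Rel1 O j β r x y = true) ↔
    (y.length ≤ r.eval x'.length ∧ Rel1 O j β r x' y = true)
  rw [Rel1, Rel1, hx]

/-- each instance has exactly one solution -/
theorem SJ1_unique {j β : ℕ} {r : Polynomial ℕ}
    (h : ∀ b, β ≤ b → ∃! z : List Bool, z.length = r.eval b ∧ O (rg j b z) = true)
    (x : List Bool) : ∃! y, (SJ1 O j β r h).IsSol x y := by
  by_cases hx : x.length < β
  · refine ⟨[], ⟨by simp, ?_⟩, ?_⟩
    · show Rel1 O j β r x [] = true
      simp [Rel1, hx]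
    · rintro y ⟨_, hy⟩
      have h1 : Rel1 O j β r x y = true := hy
      simpa [Rel1, hx] using h1
  · obtain ⟨z, ⟨hz1, hz2⟩, hz3⟩ := h x.length (by omega)
    refine ⟨z, ⟨hz1.le, ?_⟩, fun y hy => hz3 y (SJ1_sol h (by omega) hy)⟩
    show Rel1 O j β r x z = true
    simp [Rel1, hx, hz1, hz2]

end Pool.Agent.H40.EW
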